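import Pool.Agent.H74.OneP.Final

/-!
# The minimum number of crossings of maximal 1-plane graphs with connectivity 2
-/

namespace Pool.Agent.Results.MP_e1fe02_co.MinCrossings

open Pool.Agent.H74.OneP

/-- Maximal 1-plane graphs of order `n` with connectivity exactly 2 exist if and only if `n = 3` or
`n ≥ 6`; the minimum number of crossings is `0` for `n = 3` and `c2 n` for `n ≥ 6`. -/
theorem result :
    (∀ n, (∃ c, Realizable n c) ↔ n = 3 ∨ 6 ≤ n) ∧
    IsLeast {c | Realizable 3 c} 0 ∧
    ∀ n, 6 ≤ n → IsLeast {c | Realizable n c} (c2 n) :=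
  main

end Pool.Agent.Results.MP_e1fe02_co.MinCrossings
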